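import Mathlib
import Pool.Agent.H.MP_881be3_lc.Main

set_option autoImplicit false

open FirstOrder Matrix Pool.Agent.H.MP_881be3_lc

namespace Pool.Agent.Results.MP_881be3_lc.NotHomogeneous

theorem result : ∃ (n : ℕ) (P : Subgroup (GL (Fin n) ℤ))
    (φ : P →* MulAut (Multiplicative (Fin n → ℤ))),
    1 ≤ n ∧ Finite P ∧
    (∀ (p : P) (x : Fin n → ℤ), φ p (Multiplicative.ofAdd x) =
      Multiplicative.ofAdd (((p : GL (Fin n) ℤ) : Matrix (Fin n) (Fin n) ℤ) *ᵥ x)) ∧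
    (∀ W : Submodule ℚ (Fin n → ℚ),
      (∀ p ∈ P, ∀ w ∈ W,
        ((p : Matrix (Fin n) (Fin n) ℤ).map (Int.cast : ℤ → ℚ)) *ᵥ w ∈ W) → W = ⊥ ∨ W = ⊤) ∧
    ∃ (k : ℕ) (u v : Fin k → Multiplicative (Fin n → ℤ) ⋊[φ] P), 1 ≤ k ∧
      (∀ ψ : grpLang.Formula (Fin k), ψ.Realize u ↔ ψ.Realize v) ∧
      ¬ ∃ σ : MulAut (Multiplicative (Fin n → ℤ) ⋊[φ] P), ∀ i, σ (u i) = v i :=
  ⟨4, PP, ph, by norm_num, inferInstance, fun _ _ => rfl, irred, 1, fun _ => mk ph e0 h0,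
    fun _ => mk ph (2 • e0) h0, le_rfl, same_type, fun ⟨σ, h⟩ => no_aut σ (h 0)⟩

end Pool.Agent.Results.MP_881be3_lc.NotHomogeneous
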